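import Mathlib

namespace Pool.Agent.Results.MP_5e02e7_ag.Yes
open Filter Topology Matrix

/-- tensors of order `d` and format `n × ⋯ × n`, as arrays of coordinates -/
abbrev Ten (d n : ℕ) := (Fin d → Fin n) → ℂ

/-- `(g_1 ⊗ ⋯ ⊗ g_d) T` in coordinates -/
noncomputable def act {d m n : ℕ} (g : Fin d → Matrix (Fin m) (Fin n) ℂ) (T : Ten d n) :
    Ten d m := fun i => ∑ j, (∏ k, g k (i k) (j k)) * T j

/-- the unit tensor `I_r = ∑_{a < r} e_a ⊗ ⋯ ⊗ e_a` -/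
noncomputable def unitT (d n r : ℕ) : Ten d n :=
  fun i => ∑ a : Fin n, if a.val < r then ∏ k, (if i k = a then 1 else 0) else 0

/-- the group `GL_n(ℂ)^d` -/
abbrev G (d n : ℕ) := Fin d → GL (Fin n) ℂ

/-- the action of `GL_n(ℂ)^d` -/
noncomputable def gact {d n : ℕ} (g : G d n) (T : Ten d n) : Ten d n :=
  act (fun k => (g k : Matrix (Fin n) (Fin n) ℂ)) T

/-- the orbit `G · T` -/
def orbit {d n : ℕ} (T : Ten d n) : Set (Ten d n) := Set.range fun g : G d n => gact g T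

/-- border subrank -/
noncomputable def borderSubrank {d n : ℕ} (T : Ten d n) : ℕ :=
  sSup {r | r ≤ n ∧ unitT d n r ∈ closure (orbit T)}

/-- a group homomorphism `ℂˣ → G` is algebraic: all matrix entries are Laurent polynomials -/
def Algebraic {d n : ℕ} (lam : ℂˣ →* G d n) : Prop :=
  ∀ k a b, ∃ (N : ℕ) (q : Polynomial ℂ), ∀ t : ℂˣ,
    (lam t k : Matrix (Fin n) (Fin n) ℂ) a b = q.eval (t : ℂ) / (t : ℂ) ^ N

/-- some one-parameter subgroup has `lam(t) · T → S` as `t → 0` -/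
def HMLimit {d n : ℕ} (T S : Ten d n) : Prop :=
  ∃ lam : ℂˣ →* G d n, Algebraic lam ∧
    Tendsto (fun t : ℂˣ => gact (lam t) T) (comap (fun t : ℂˣ => (t : ℂ)) (𝓝 0)) (𝓝 S)

/-- Hilbert-Mumford subrank, the limit being any tensor in the orbit of `I_r` -/
noncomputable def hmSubrank {d n : ℕ} (T : Ten d n) : ℕ :=
  sSup {r | r ≤ n ∧ ∃ S ∈ orbit (unitT d n r), HMLimit T S}

/-- Hilbert-Mumford subrank, the limit being `I_r` itself -/
noncomputable def hmSubrank' {d n : ℕ} (T : Ten d n) : ℕ :=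
  sSup {r | r ≤ n ∧ HMLimit T (unitT d n r)}

theorem act_mul {d l m n : ℕ} (A : Fin d → Matrix (Fin l) (Fin m) ℂ)
    (B : Fin d → Matrix (Fin m) (Fin n) ℂ) (T : Ten d n) :
    act A (act B T) = act (fun k => A k * B k) T := by
  funext i
  simp only [act, Matrix.mul_apply, Finset.mul_sum]
  rw [Finset.sum_comm]
  refine Finset.sum_congr rfl fun j _ => ?_
  rw [Finset.prod_univ_sum, Finset.sum_mul, Fintype.piFinset_univ]
  refine Finset.sum_congr rfl fun x _ => ?_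
  rw [Finset.prod_mul_distrib]; ring

theorem act_one {d n : ℕ} (T : Ten d n) : act (fun _ => 1) T = T := by
  funext i
  simp only [act, Matrix.one_apply]
  rw [Finset.sum_eq_single i]
  · simp
  · intro j _ hj
    obtain ⟨k, hk⟩ := Function.ne_iff.1 hj
    rw [Finset.prod_eq_zero (Finset.mem_univ k) (if_neg (Ne.symm hk)), zero_mul]
  · simp

theorem act_cont {d m n : ℕ} (A : Fin d → Matrix (Fin m) (Fin n) ℂ) :
    Continuous (act A : Ten d n → Ten d m) := by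
  unfold act; fun_prop

theorem sum4 {n : ℕ} (f : (Fin 4 → Fin n) → ℂ) :
    ∑ j, f j = ∑ a, ∑ b, ∑ c, ∑ e, f ![a, b, c, e] := by
  have h : ∀ (m : ℕ) (f : (Fin (m + 1) → Fin n) → ℂ),
      ∑ j, f j = ∑ a, ∑ j : Fin m → Fin n, f (Fin.cons a j) := by
    intro m f
    rw [← (Fin.consEquiv fun _ => Fin n).sum_comp, Fintype.sum_prod_type]
    rfl
  simp only [h, Finset.univ_unique, Finset.sum_singleton]
  rfl

/-- the example -/
def tab : Fin 3 → Fin 3 → Fin 3 → Fin 3 → ℂ :=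
  ![![![![0, 0, 1], ![0, 1, 0], ![0, 0, 0]], ![![0, 0, 0], ![1, 1, 0], ![0, 0, 0]],
      ![![0, 0, 0], ![0, 0, 0], ![0, 0, 0]]],
    ![![![0, 1, 0], ![0, 0, 0], ![0, 0, 0]], ![![1, 0, 0], ![0, 0, 1], ![0, 0, 0]],
      ![![0, 0, 0], ![0, 0, 0], ![0, 0, 0]]],
    ![![![0, 0, 0], ![0, 0, 0], ![0, 0, 0]], ![![0, 0, 0], ![0, 0, 0], ![0, 0, 0]],
      ![![0, 0, 0], ![0, 0, 0], ![0, 0, 0]]]]

def T0 : Ten 4 3 := fun j => tab (j 0) (j 1) (j 2) (j 3)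

theorem actT0 {m : ℕ} (B : Fin 4 → Matrix (Fin m) (Fin 3) ℂ) (i : Fin 4 → Fin m) :
    act B T0 i =
      B 0 (i 0) 0 * (B 1 (i 1) 0 * (B 2 (i 2) 0 * B 3 (i 3) 2 + B 2 (i 2) 1 * B 3 (i 3) 1) +
        B 1 (i 1) 1 * (B 2 (i 2) 1 * (B 3 (i 3) 0 + B 3 (i 3) 1))) +
      B 0 (i 0) 1 * (B 1 (i 1) 0 * (B 2 (i 2) 0 * B 3 (i 3) 1) +
        B 1 (i 1) 1 * (B 2 (i 2) 0 * B 3 (i 3) 0 + B 2 (i 2) 1 * B 3 (i 3) 2)) := by
  simp only [act, sum4, Fin.sum_univ_three, Fin.prod_univ_four, T0, tab]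
  simp
  ring

theorem eig (L : ℂˣ → Matrix (Fin 3) (Fin 3) ℂ) (h1 : L 1 = 1) (hm : ∀ s t, L (s * t) = L s * L t)
    (hq : ∃ (N : ℕ) (q : Fin 3 → Polynomial ℂ), ∀ (t : ℂˣ) a, (t : ℂ) ^ N * L t a 2 = (q a).eval (t : ℂ)) :
    ∃ w : Fin 3 → ℂ, w 2 ≠ 0 ∧ ∀ s, ∃ c : ℂ, L s *ᵥ w = c • w := by
  obtain ⟨N, q, hq⟩ := hq
  have h2 : q 2 ≠ 0 := by
    intro h
    have := hq 1 2
    simp [h, h1] at this
  obtain ⟨k, hk⟩ : ∃ k, (q 2).coeff k ≠ 0 := by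
    by_contra h
    push Not at h
    exact h2 (Polynomial.ext h)
  refine ⟨fun a => (q a).coeff k, hk, fun s => ⟨(s : ℂ) ^ k / (s : ℂ) ^ N, ?_⟩⟩
  funext a
  have hp : (q a).comp (Polynomial.C (s : ℂ) * Polynomial.X) =
      ∑ b, Polynomial.C ((s : ℂ) ^ N * L s a b) * q b := by
    apply Polynomial.eq_of_infinite_eval_eq
    refine ((Set.finite_singleton (0 : ℂ)).infinite_compl).mono fun t ht => ?_
    have ht0 : t ≠ 0 := ht
    have e := hq (s * Units.mk0 t ht0) a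
    simp only [hm, Matrix.mul_apply, Units.val_mul, Units.val_mk0] at e
    simp only [Set.mem_ofPred_eq, Polynomial.eval_comp, Polynomial.eval_mul, Polynomial.eval_C,
      Polynomial.eval_X, Polynomial.eval_finsetSum]
    rw [← e, Finset.mul_sum]
    refine Finset.sum_congr rfl fun b _ => ?_
    have := hq (Units.mk0 t ht0) b
    simp only [Units.val_mk0] at this
    rw [← this]; ring
  have hc := congrArg (fun p => Polynomial.coeff p k) hp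
  simp only [Polynomial.comp_C_mul_X_coeff, Polynomial.finsetSum_coeff,
    Polynomial.coeff_C_mul] at hc
  simp only [Matrix.mulVec, dotProduct, Pi.smul_apply, smul_eq_mul]
  have hs : (s : ℂ) ^ N ≠ 0 := pow_ne_zero _ s.ne_zero
  field_simp
  rw [mul_comm ((s : ℂ) ^ k), hc, Finset.sum_mul]
  exact Finset.sum_congr rfl fun b _ => by ring

/-- the quadratic invariant of `2 × 2 × 2 × 2` tensors -/
def Hf (X : Ten 4 2) : ℂ :=
  X ![0, 0, 0, 0] * X ![1, 1, 1, 1]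
  - X ![0, 0, 0, 1] * X ![1, 1, 1, 0]
  - X ![0, 0, 1, 0] * X ![1, 1, 0, 1]
  + X ![0, 0, 1, 1] * X ![1, 1, 0, 0]
  - X ![0, 1, 0, 0] * X ![1, 0, 1, 1]
  + X ![0, 1, 0, 1] * X ![1, 0, 1, 0]
  + X ![0, 1, 1, 0] * X ![1, 0, 0, 1]
  - X ![0, 1, 1, 1] * X ![1, 0, 0, 0]

/-- determinant of the flattening `13|24` -/
def Mf (X : Ten 4 2) : ℂ :=
  (X ![0, 0, 0, 0] * X ![0, 0, 1, 1] - X ![0, 0, 0, 1] * X ![0, 0, 1, 0]) *
    (X ![1, 1, 0, 0] * X ![1, 1, 1, 1] - X ![1, 1, 0, 1] * X ![1, 1, 1, 0])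
  - (X ![0, 0, 0, 0] * X ![0, 1, 1, 0] - X ![0, 1, 0, 0] * X ![0, 0, 1, 0]) *
    (X ![1, 0, 0, 1] * X ![1, 1, 1, 1] - X ![1, 1, 0, 1] * X ![1, 0, 1, 1])
  + (X ![0, 0, 0, 0] * X ![0, 1, 1, 1] - X ![0, 1, 0, 1] * X ![0, 0, 1, 0]) *
    (X ![1, 0, 0, 1] * X ![1, 1, 1, 0] - X ![1, 1, 0, 0] * X ![1, 0, 1, 1])
  + (X ![0, 0, 0, 1] * X ![0, 1, 1, 0] - X ![0, 1, 0, 0] * X ![0, 0, 1, 1]) *
    (X ![1, 0, 0, 0] * X ![1, 1, 1, 1] - X ![1, 1, 0, 1] * X ![1, 0, 1, 0])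
  - (X ![0, 0, 0, 1] * X ![0, 1, 1, 1] - X ![0, 1, 0, 1] * X ![0, 0, 1, 1]) *
    (X ![1, 0, 0, 0] * X ![1, 1, 1, 0] - X ![1, 1, 0, 0] * X ![1, 0, 1, 0])
  + (X ![0, 1, 0, 0] * X ![0, 1, 1, 1] - X ![0, 1, 0, 1] * X ![0, 1, 1, 0]) *
    (X ![1, 0, 0, 0] * X ![1, 0, 1, 1] - X ![1, 0, 0, 1] * X ![1, 0, 1, 0])

/-- determinant of the flattening `23|14` -/
def Nf (X : Ten 4 2) : ℂ :=
  (X ![0, 0, 0, 0] * X ![0, 0, 1, 1] - X ![0, 0, 0, 1] * X ![0, 0, 1, 0]) *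
    (X ![1, 1, 0, 0] * X ![1, 1, 1, 1] - X ![1, 1, 0, 1] * X ![1, 1, 1, 0])
  - (X ![0, 0, 0, 0] * X ![1, 0, 1, 0] - X ![1, 0, 0, 0] * X ![0, 0, 1, 0]) *
    (X ![0, 1, 0, 1] * X ![1, 1, 1, 1] - X ![1, 1, 0, 1] * X ![0, 1, 1, 1])
  + (X ![0, 0, 0, 0] * X ![1, 0, 1, 1] - X ![1, 0, 0, 1] * X ![0, 0, 1, 0]) *
    (X ![0, 1, 0, 1] * X ![1, 1, 1, 0] - X ![1, 1, 0, 0] * X ![0, 1, 1, 1])
  + (X ![0, 0, 0, 1] * X ![1, 0, 1, 0] - X ![1, 0, 0, 0] * X ![0, 0, 1, 1]) *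
    (X ![0, 1, 0, 0] * X ![1, 1, 1, 1] - X ![1, 1, 0, 1] * X ![0, 1, 1, 0])
  - (X ![0, 0, 0, 1] * X ![1, 0, 1, 1] - X ![1, 0, 0, 1] * X ![0, 0, 1, 1]) *
    (X ![0, 1, 0, 0] * X ![1, 1, 1, 0] - X ![1, 1, 0, 0] * X ![0, 1, 1, 0])
  + (X ![1, 0, 0, 0] * X ![1, 0, 1, 1] - X ![1, 0, 0, 1] * X ![1, 0, 1, 0]) *
    (X ![0, 1, 0, 0] * X ![0, 1, 1, 1] - X ![0, 1, 0, 1] * X ![0, 1, 1, 0])

/-- a `2 × 2` minor -/
def mn {n : ℕ} (B : Matrix (Fin 2) (Fin n) ℂ) (a b : Fin n) : ℂ := B 0 a * B 1 b - B 0 b * B 1 a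

theorem mn_mul (u : Matrix (Fin 2) (Fin 2) ℂ) (B : Matrix (Fin 2) (Fin 3) ℂ) (a b : Fin 3) :
    mn (u * B) a b = mn u 0 1 * mn B a b := by
  simp only [mn, Matrix.mul_apply, Fin.sum_univ_two]; ring

theorem Hf_eq (B : Fin 4 → Matrix (Fin 2) (Fin 3) ℂ) : Hf (act B T0) =
    2 * (mn (B 0) 0 1 * mn (B 1) 0 1 * mn (B 2) 0 1 * mn (B 3) 0 1) := by
  simp only [Hf, actT0, mn]
  simp only [Matrix.cons_val]
  ring

theorem Mf_eq (B : Fin 4 → Matrix (Fin 2) (Fin 3) ℂ) : Mf (act B T0) =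
    (mn (B 0) 0 1 * mn (B 1) 0 1 * mn (B 2) 0 1 * mn (B 3) 1 2) ^ 2 := by
  simp only [Mf, actT0, mn]
  simp only [Matrix.cons_val]
  ring

theorem Nf_eq (B : Fin 4 → Matrix (Fin 2) (Fin 3) ℂ) : Nf (act B T0) =
    (mn (B 0) 0 1 * mn (B 1) 0 1 * mn (B 2) 0 1) ^ 2 *
      (mn (B 3) 1 2 * mn (B 3) 2 0 - mn (B 3) 0 1 ^ 2) := by
  simp only [Nf, actT0, mn]
  simp only [Matrix.cons_val]
  ring

theorem no2 {ι : Type} (l : Filter ι) [l.NeBot] (A : Fin 4 → Matrix (Fin 2) (Fin 3) ℂ)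
    (u : ι → Fin 4 → Matrix (Fin 2) (Fin 2) ℂ)
    (h : Tendsto (fun t => act (fun k => u t k * A k) T0) l (𝓝 (unitT 4 2 2))) : False := by
  have cH : Continuous Hf := by unfold Hf; fun_prop
  have cM : Continuous Mf := by unfold Mf; fun_prop
  have cN : Continuous Nf := by unfold Nf; fun_prop
  have h1 := (cH.tendsto _).comp h
  have h2 := (cM.tendsto _).comp h
  have h3 := (cN.tendsto _).comp h
  have e1 : Hf (unitT 4 2 2) = 1 := by simp [Hf, unitT, Fin.prod_univ_four]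
  have e2 : Mf (unitT 4 2 2) = 0 := by simp [Mf, unitT, Fin.prod_univ_four]
  have e3 : Nf (unitT 4 2 2) = 0 := by simp [Nf, unitT, Fin.prod_univ_four]
  rw [e1] at h1; rw [e2] at h2; rw [e3] at h3
  set D : ι → ℂ := fun t => mn (u t 0) 0 1 * mn (u t 1) 0 1 * mn (u t 2) 0 1 * mn (u t 3) 0 1 *
    (mn (A 0) 0 1 * mn (A 1) 0 1 * mn (A 2) 0 1)
  set x := mn (A 3) 1 2
  set y := mn (A 3) 2 0
  set z := mn (A 3) 0 1
  have g1 : Tendsto (fun t => 2 * (D t * z)) l (𝓝 1) :=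
    h1.congr fun t => by simp only [Function.comp, Hf_eq, mn_mul, D, z]; ring
  have g2 : Tendsto (fun t => (D t * x) ^ 2) l (𝓝 0) :=
    h2.congr fun t => by simp only [Function.comp, Mf_eq, mn_mul, D, x]; ring
  have g3 : Tendsto (fun t => D t ^ 2 * (x * y - z ^ 2)) l (𝓝 0) :=
    h3.congr fun t => by simp only [Function.comp, Nf_eq, mn_mul, D, x, y, z]; ring
  have hx : x = 0 := by
    have a1 := (g1.pow 2).mul_const (x ^ 2)
    have a2 := g2.mul_const (4 * z ^ 2)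
    have := tendsto_nhds_unique a1 (a2.congr fun t => by ring)
    simpa using this
  have a1 := g1.pow 2
  have a2 := g3.mul_const (-4)
  have := tendsto_nhds_unique a1 (a2.congr fun t => by rw [hx]; ring)
  simp at this

/-- a `3 × 3` minor of the first flattening -/
def Kf (X : Ten 4 3) : ℂ := Matrix.det (Matrix.of fun a b : Fin 3 => X ![a, b, b, b])

theorem no3 {ι : Type} (l : Filter ι) [l.NeBot] (B : ι → Fin 4 → Matrix (Fin 3) (Fin 3) ℂ)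
    (h : Tendsto (fun t => act (B t) T0) l (𝓝 (unitT 4 3 3))) : False := by
  have cK : Continuous Kf := by
    unfold Kf; simp only [Matrix.det_fin_three, Matrix.of_apply]; fun_prop
  have h1 := (cK.tendsto _).comp h
  have e1 : Kf (unitT 4 3 3) = 1 := by
    simp [Kf, unitT, Fin.prod_univ_four, Matrix.det_fin_three, Fin.sum_univ_three]
  rw [e1] at h1
  have h2 : Tendsto (fun _ : ι => (0 : ℂ)) l (𝓝 1) := h1.congr fun t => by
    simp only [Function.comp, Kf, Matrix.det_fin_three, Matrix.of_apply, actT0]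
    simp only [Matrix.cons_val]
    ring
  simpa using tendsto_nhds_unique h2 tendsto_const_nhds

instance : (comap (fun t : ℂˣ => (t : ℂ)) (𝓝 0)).NeBot := by
  refine comap_neBot fun U hU => ?_
  obtain ⟨t, ht, ht0⟩ := Filter.nonempty_of_mem (inter_mem
    (mem_nhdsWithin_of_mem_nhds hU : U ∈ 𝓝[≠] (0 : ℂ)) self_mem_nhdsWithin)
  exact ⟨Units.mk0 t ht0, ht⟩

theorem hm_le (r : ℕ) (hr : r ≤ 3) (S : Ten 4 3) (hS : S ∈ orbit (unitT 4 3 r))
    (h : HMLimit T0 S) : r ≤ 1 := by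
  obtain ⟨g, rfl⟩ := hS
  obtain ⟨lam, ha, h⟩ := h
  set P : Fin 4 → Matrix (Fin 3) (Fin 3) ℂ := fun k => (g k : Matrix (Fin 3) (Fin 3) ℂ) with hP
  set Q : Fin 4 → Matrix (Fin 3) (Fin 3) ℂ := fun k => ((g k)⁻¹ : GL (Fin 3) ℂ) with hQ
  have hQP : ∀ k, Q k * P k = 1 := fun k => Units.inv_mul (g k)
  have hPQ : ∀ k, P k * Q k = 1 := fun k => Units.mul_inv (g k)
  have h1 := ((act_cont Q).tendsto _).comp h
  simp only [gact, act_mul, Function.comp_def] at h1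
  rw [show (fun k => Q k * (g k : Matrix (Fin 3) (Fin 3) ℂ)) = fun _ => 1 from funext hQP,
    act_one] at h1
  by_contra hr1
  obtain rfl | rfl : r = 2 ∨ r = 3 := by omega
  swap
  · exact no3 _ _ h1
  let L : Fin 4 → ℂˣ → Matrix (Fin 3) (Fin 3) ℂ := fun k t => Q k * (lam t k : Matrix _ _ ℂ) * P k
  have hw : ∀ k, ∃ w : Fin 3 → ℂ, w 2 ≠ 0 ∧ ∀ s, ∃ c : ℂ, L k s *ᵥ w = c • w := by
    intro k
    refine eig (L k) (by simp [L, hQP]) (fun s t => ?_) ?_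
    · simp only [L, map_mul, Pi.mul_apply, Units.val_mul]
      calc _ = Q k * (lam s k : Matrix _ _ ℂ) * (P k * Q k) * (lam t k : Matrix _ _ ℂ) * P k := by
            rw [hPQ]; simp [Matrix.mul_assoc]
        _ = _ := by simp only [Matrix.mul_assoc]
    · choose N q hq using ha k
      refine ⟨∑ b, ∑ c, N b c, fun a => ∑ c, ∑ b, Polynomial.C (Q k a b * P k c 2) *
        (Polynomial.X ^ ((∑ b, ∑ c, N b c) - N b c) * q b c), fun t a => ?_⟩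
      simp only [L, Matrix.mul_apply, hq, Polynomial.eval_finsetSum, Polynomial.eval_mul,
        Polynomial.eval_C, Polynomial.eval_pow, Polynomial.eval_X, Finset.mul_sum, Finset.sum_mul]
      refine Finset.sum_congr rfl fun c _ => Finset.sum_congr rfl fun b _ => ?_
      have hle : N b c ≤ ∑ b, ∑ c, N b c :=
        (Finset.single_le_sum (f := fun c => N b c) (fun _ _ => Nat.zero_le _)
          (Finset.mem_univ c)).trans (Finset.single_le_sum (f := fun b => ∑ c, N b c)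
            (fun _ _ => Nat.zero_le _) (Finset.mem_univ b))
      rw [pow_sub₀ _ t.ne_zero hle]
      ring
  choose w hw0 hw using hw
  let p : Fin 4 → Matrix (Fin 2) (Fin 3) ℂ := fun k =>
    !![1, 0, -(w k 0 / w k 2); 0, 1, -(w k 1 / w k 2)]
  let e : Matrix (Fin 3) (Fin 2) ℂ := !![1, 0; 0, 1; 0, 0]
  have hp : ∀ k t, p k * L k t * e * p k = p k * L k t := by
    intro k t
    obtain ⟨c, hc⟩ := hw k t
    have c0 := congrFun hc 0
    have c1 := congrFun hc 1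
    have c2 := congrFun hc 2
    have := hw0 k
    simp only [Matrix.mulVec, dotProduct, Fin.sum_univ_three, Pi.smul_apply, smul_eq_mul]
      at c0 c1 c2
    generalize L k t = M at c0 c1 c2 ⊢
    ext a b
    simp only [Matrix.mul_apply, Fin.sum_univ_three, Fin.sum_univ_two]
    fin_cases a <;> fin_cases b <;> simp [p, e] <;> field_simp
    · linear_combination (-(w k 2)) * c0 + w k 0 * c2
    · linear_combination (-(w k 2)) * c1 + w k 1 * c2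
  have h2 := ((act_cont p).tendsto _).comp h1
  have e2 : act p (unitT 4 3 2) = unitT 4 2 2 := by
    funext i
    simp only [act, sum4, unitT, Fin.sum_univ_three, Fin.sum_univ_two, Fin.prod_univ_four]
    have hv : ∀ k (a : Fin 2), p k a 0 = (if a = 0 then 1 else 0) ∧
        p k a 1 = (if a = 1 then 1 else 0) := fun k a => by fin_cases a <;> simp [p]
    simp [hv]
  rw [e2] at h2
  refine no2 _ (fun k => p k * Q k) (fun t k => p k * L k t * e) (h2.congr fun t => ?_)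
  simp only [Function.comp, act_mul]
  congr 1
  funext k
  rw [← Matrix.mul_assoc _ (p k), hp]
  simp only [L, Matrix.mul_assoc, hPQ, Matrix.mul_one]

/-- the degenerating family -/
noncomputable def gd (x : ℂ) : Fin 4 → Matrix (Fin 3) (Fin 3) ℂ :=
  ![!![x ^ 2, 1, 0; x ^ 3, 0, 0; 0, 0, 1], !![-1 / 2, 0, 0; -1 / x ^ 3, -x, 0; 0, 0, 1],
    !![x ^ 2, 1, 0; x ^ 3, 0, 0; 0, 0, 1],
    !![1 / x ^ 6, -1 / x ^ 2, 0; 1 / x ^ 5, 0, -1 / x ^ 3; 0, 0, 1]]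

/-- its values on the example -/
noncomputable def Fd (x : ℂ) : Fin 3 → Fin 3 → Fin 3 → Fin 3 → ℂ :=
  ![![![![1, x / 2, -x ^ 4 / 2], ![x / 2, x ^ 2 / 2, -x ^ 5 / 2], ![0, 0, 0]],
      ![![x, 0, -2 * x], ![0, 0, -x ^ 2], ![0, 0, 0]], ![![0, 0, 0], ![0, 0, 0], ![0, 0, 0]]],
    ![![![x / 2, x ^ 2 / 2, -x ^ 5 / 2], ![0, x ^ 3 / 2, -x ^ 6 / 2], ![0, 0, 0]],
      ![![x ^ 2, 0, -x ^ 2], ![0, 1, -x ^ 3], ![0, 0, 0]], ![![0, 0, 0], ![0, 0, 0], ![0, 0, 0]]],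
    ![![![0, 0, 0], ![0, 0, 0], ![0, 0, 0]], ![![0, 0, 0], ![0, 0, 0], ![0, 0, 0]],
      ![![0, 0, 0], ![0, 0, 0], ![0, 0, 0]]]]

theorem gd_eq (x : ℂ) (hx : x ≠ 0) (i : Fin 4 → Fin 3) :
    act (gd x) T0 i = Fd x (i 0) (i 1) (i 2) (i 3) := by
  rw [actT0]
  generalize i 0 = a, i 1 = b, i 2 = c, i 3 = d
  fin_cases a <;> fin_cases b <;> fin_cases c <;> fin_cases d <;> simp [gd, Fd] <;> field_simp <;>
    first | ring1 | simp

theorem border : unitT 4 3 2 ∈ closure (orbit T0) := by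
  have hc : Tendsto (fun x : ℂ => (fun i => Fd x (i 0) (i 1) (i 2) (i 3) : Ten 4 3)) (𝓝[≠] 0)
      (𝓝 (unitT 4 3 2)) := by
    refine tendsto_pi_nhds.2 fun i => tendsto_nhdsWithin_of_tendsto_nhds ?_
    simp only [unitT, Fin.sum_univ_three, Fin.prod_univ_four]
    generalize i 0 = a, i 1 = b, i 2 = c, i 3 = d
    refine Continuous.tendsto' ?_ _ _ ?_
    · fin_cases a <;> fin_cases b <;> fin_cases c <;> fin_cases d <;> simp [Fd] <;> fun_prop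
    · fin_cases a <;> fin_cases b <;> fin_cases c <;> fin_cases d <;> simp [Fd]
  refine mem_closure_of_tendsto hc (eventually_nhdsWithin_of_forall fun x hx => ?_)
  have hx0 : x ≠ 0 := hx
  have hd : ∀ k, (gd x k).det ≠ 0 := fun k => by
    fin_cases k <;> simp [gd, Matrix.det_fin_three, hx0]
  refine ⟨fun k => Matrix.GeneralLinearGroup.mkOfDetNeZero _ (hd k), ?_⟩
  funext i
  exact gd_eq x hx0 i

theorem result : ∃ d n : ℕ, 2 ≤ d ∧ 1 ≤ n ∧ ∃ T : Ten d n,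
    hmSubrank T < borderSubrank T ∧ hmSubrank' T < borderSubrank T := by
  have hb : 2 ≤ borderSubrank T0 :=
    le_csSup ⟨3, fun r hr => hr.1⟩ ⟨by norm_num, border⟩
  refine ⟨4, 3, by norm_num, by norm_num, T0, lt_of_lt_of_le (Nat.lt_succ_of_le ?_) hb,
    lt_of_lt_of_le (Nat.lt_succ_of_le ?_) hb⟩
  · exact csSup_le' fun r ⟨hr, S, hS, h⟩ => hm_le r hr S hS h
  · exact csSup_le' fun r ⟨hr, h⟩ => hm_le r hr _ ⟨1, by simp [gact, act_one]⟩ h

end Pool.Agent.Results.MP_5e02e7_ag.Yes
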